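import Pool.Agent.H298R3.Lp.OneDim

set_option autoImplicit false

/-!
# The curse of dimensionality for `L_p`-discrepancy with real weights: the `d`-dimensional step
-/

open MeasureTheory Set Filter Topology

namespace Pool.Agent.H298R3.Lp

variable {d n : ℕ}

lemma restrict_eq (d : ℕ) : (volume : Measure (Fin d → ℝ)).restrict (Icc (0 : Fin d → ℝ) 1) =
    Measure.pi (fun _ => (volume : Measure ℝ).restrict (Icc 0 1)) := by
  rw [← Measure.restrict_pi_pi, Set.pi_univ_Icc]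
  rfl

lemma cube_prod (f : Fin d → ℝ → ℝ) :
    ∫ t in Icc (0 : Fin d → ℝ) 1, ∏ i, f i (t i) = ∏ i, ∫ s in Icc (0:ℝ) 1, f i s := by
  rw [restrict_eq]
  exact integral_fintype_prod_eq_prod f

lemma cube_prod_const (f : ℝ → ℝ) :
    ∫ t in Icc (0 : Fin d → ℝ) 1, ∏ i, f (t i) = (∫ s in Icc (0:ℝ) 1, f s) ^ d := by
  rw [cube_prod (fun _ => f)]
  simp

instance : IsFiniteMeasure ((volume : Measure (Fin d → ℝ)).restrict (Icc (0 : Fin d → ℝ) 1)) :=
  ⟨by rw [Measure.restrict_apply_univ]; exact isCompact_Icc.measure_lt_top⟩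

lemma memLp_cube {f : (Fin d → ℝ) → ℝ} (hf : Measurable f) (C : ℝ)
    (hC : ∀ t ∈ Icc (0 : Fin d → ℝ) 1, |f t| ≤ C) (p : ENNReal) :
    MemLp f p ((volume : Measure (Fin d → ℝ)).restrict (Icc (0 : Fin d → ℝ) 1)) := by
  refine MemLp.of_bound hf.aestronglyMeasurable C ?_
  rw [ae_restrict_iff' measurableSet_Icc]
  exact ae_of_all _ hC

lemma int_cube {f : (Fin d → ℝ) → ℝ} (hf : Measurable f) (C : ℝ)
    (hC : ∀ t ∈ Icc (0 : Fin d → ℝ) 1, |f t| ≤ C) :
    IntegrableOn f (Icc (0 : Fin d → ℝ) 1) :=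
  memLp_one_iff_integrable.1 (memLp_cube hf C hC 1)

lemma memLp_unit {f : ℝ → ℝ} (hf : Measurable f) (C : ℝ)
    (hC : ∀ t ∈ Icc (0 : ℝ) 1, |f t| ≤ C) (p : ENNReal) :
    MemLp f p ((volume : Measure ℝ).restrict (Icc (0 : ℝ) 1)) := by
  refine MemLp.of_bound hf.aestronglyMeasurable C ?_
  rw [ae_restrict_iff' measurableSet_Icc]
  exact ae_of_all _ hC

/-- good words: every point is killed in some coordinate -/
def Good (x : Fin n → Fin d → ℝ) (ω : Fin d → Fin 3) : Prop := ∀ i, ∃ j, ω j = kk (x i j)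

open Classical in
/-- the test function -/
noncomputable def h (p α : ℝ) (x : Fin n → Fin d → ℝ) (t : Fin d → ℝ) : ℝ :=
  ∑ ω ∈ Finset.univ.filter (Good x), ∏ j, U p α (ω j) (t j)

open Classical in
noncomputable def B (p α : ℝ) (x : Fin n → Fin d → ℝ) (t : Fin d → ℝ) : ℝ :=
  ∑ ω ∈ Finset.univ.filter (fun ω => ¬ Good x ω), ∏ j, U p α (ω j) (t j)

lemma h_add_B {p α : ℝ} (x : Fin n → Fin d → ℝ) {t : Fin d → ℝ} (ht : t ∈ Icc (0 : Fin d → ℝ) 1) :
    h p α x t + B p α x t = ∏ j, t j ^ (p - 1) := by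
  classical
  unfold h B
  rw [Finset.sum_filter_add_sum_filter_not]
  have h1 : ∀ j, t j ^ (p - 1) = ∑ ω, U p α ω (t j) := fun j => (sum_U ⟨ht.1 j, ht.2 j⟩).symm
  simp_rw [h1]
  rw [Finset.prod_univ_sum]
  rfl

lemma abs_B_le {p α : ℝ} (x : Fin n → Fin d → ℝ) (t : Fin d → ℝ) :
    |B p α x t| ≤ ∑ i, ∏ j, S p α (x i j) (t j) := by
  classical
  unfold B
  set g : (Fin d → Fin 3) → ℝ := fun ω => ∏ j, |U p α (ω j) (t j)| with hg
  have hg0 : ∀ ω, 0 ≤ g ω := fun ω => Finset.prod_nonneg fun _ _ => abs_nonneg _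
  set P : Fin n → Finset (Fin d → Fin 3) := fun i =>
    Fintype.piFinset (fun j => Finset.univ.filter (fun ω => ω ≠ kk (x i j))) with hP
  calc |∑ ω ∈ Finset.univ.filter (fun ω => ¬ Good x ω), ∏ j, U p α (ω j) (t j)|
      ≤ ∑ ω ∈ Finset.univ.filter (fun ω => ¬ Good x ω), g ω := by
        refine (Finset.abs_sum_le_sum_abs _ _).trans (le_of_eq ?_)
        refine Finset.sum_congr rfl fun ω _ => ?_
        rw [Finset.abs_prod]
    _ ≤ ∑ ω ∈ Finset.univ.filter (fun ω => ¬ Good x ω), ∑ i, if ω ∈ P i then g ω else 0 := by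
        refine Finset.sum_le_sum fun ω hω => ?_
        rw [Finset.mem_filter] at hω
        have h2 := hω.2
        unfold Good at h2
        push Not at h2
        obtain ⟨i, hi⟩ := h2
        have h3 : ω ∈ P i := by
          rw [hP]
          simp only [Fintype.mem_piFinset, Finset.mem_filter, Finset.mem_univ, true_and]
          exact hi
        calc g ω = if ω ∈ P i then g ω else 0 := by rw [if_pos h3]
          _ ≤ ∑ i, if ω ∈ P i then g ω else 0 :=
            Finset.single_le_sum (f := fun i => if ω ∈ P i then g ω else 0)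
              (fun i _ => by split_ifs; exacts [hg0 ω, le_rfl]) (Finset.mem_univ i)
    _ = ∑ i, ∑ ω ∈ Finset.univ.filter (fun ω => ¬ Good x ω), if ω ∈ P i then g ω else 0 :=
        Finset.sum_comm
    _ ≤ ∑ i, ∑ ω, if ω ∈ P i then g ω else 0 := by
        refine Finset.sum_le_sum fun i _ => ?_
        refine Finset.sum_le_sum_of_subset_of_nonneg (Finset.filter_subset _ _) ?_
        intro ω _ _
        split_ifs
        · exact hg0 ω
        · exact le_rfl
    _ = ∑ i, ∏ j, S p α (x i j) (t j) := by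
        refine Finset.sum_congr rfl fun i _ => ?_
        unfold S
        rw [Finset.prod_univ_sum, Finset.sum_ite_mem, Finset.univ_inter]

lemma measurable_h (p α : ℝ) (x : Fin n → Fin d → ℝ) : Measurable (h p α x) := by
  unfold h
  refine Finset.measurable_sum _ fun ω _ => Finset.measurable_prod _ fun j _ => ?_
  exact (measurable_U p α (ω j)).comp (measurable_pi_apply j)

lemma measurable_B (p α : ℝ) (x : Fin n → Fin d → ℝ) : Measurable (B p α x) := by
  unfold B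
  refine Finset.measurable_sum _ fun ω _ => Finset.measurable_prod _ fun j _ => ?_
  exact (measurable_U p α (ω j)).comp (measurable_pi_apply j)

lemma S_le {p α : ℝ} (hp : 1 < p) (h0 : 0 < α) (h1 : α * 2 ^ p ≤ 1 / 4) (h2 : α ≤ 1 / 4)
    (x t : ℝ) : S p α x t ≤ 6 := by
  unfold S
  calc _ ≤ ∑ ω ∈ Finset.univ.filter (fun ω : Fin 3 => ω ≠ kk x), (2:ℝ) :=
        Finset.sum_le_sum fun ω _ => abs_U_le hp h0 h1 h2 ω t
    _ ≤ ∑ ω : Fin 3, (2:ℝ) := Finset.sum_le_sum_of_subset_of_nonneg (Finset.filter_subset _ _)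
        (fun _ _ _ => by norm_num)
    _ = 6 := by simp; norm_num

lemma indicator_eq_prod (a t : Fin d → ℝ) :
    Set.indicator {y : Fin d → ℝ | ∀ i, a i < y i} (fun _ => (1 : ℝ)) t =
      ∏ j, (Ioi (a j)).indicator (fun _ => (1:ℝ)) (t j) := by
  by_cases ht : ∀ i, a i < t i
  · rw [indicator_of_mem (show t ∈ {y : Fin d → ℝ | ∀ i, a i < y i} from ht)]
    refine (Finset.prod_eq_one fun j _ => ?_).symm
    rw [indicator_of_mem (show t j ∈ Ioi (a j) from ht j)]
  · rw [indicator_of_notMem (show t ∉ {y : Fin d → ℝ | ∀ i, a i < y i} from ht)]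
    push Not at ht
    obtain ⟨j, hj⟩ := ht
    refine (Finset.prod_eq_zero (Finset.mem_univ j) ?_).symm
    rw [indicator_of_notMem (show t j ∉ Ioi (a j) from not_lt.2 hj)]

lemma measurable_ind (a : Fin d → ℝ) : Measurable
    (Set.indicator {y : Fin d → ℝ | ∀ i, a i < y i} (fun _ => (1 : ℝ))) := by
  refine Measurable.indicator measurable_const ?_
  have : {y : Fin d → ℝ | ∀ i, a i < y i} = ⋂ i, {y : Fin d → ℝ | a i < y i} := by ext s; simp
  rw [this]
  exact MeasurableSet.iInter fun i => measurableSet_lt measurable_const (measurable_pi_apply i)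

lemma abs_ind_le (a t : Fin d → ℝ) :
    |Set.indicator {y : Fin d → ℝ | ∀ i, a i < y i} (fun _ => (1 : ℝ)) t| ≤ 1 := by
  rw [Set.indicator_apply]; split_ifs <;> simp

/-- bound for `h` on the whole space -/
lemma abs_prod_U_le {p α : ℝ} (hp : 1 < p) (h0 : 0 < α) (h1 : α * 2 ^ p ≤ 1 / 4) (h2 : α ≤ 1 / 4)
    (ω : Fin d → Fin 3) (t : Fin d → ℝ) : |∏ j, U p α (ω j) (t j)| ≤ 2 ^ d := by
  rw [Finset.abs_prod]
  calc ∏ j, |U p α (ω j) (t j)| ≤ ∏ _j : Fin d, (2:ℝ) :=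
        Finset.prod_le_prod (fun _ _ => abs_nonneg _) fun j _ => abs_U_le hp h0 h1 h2 _ _
    _ = 2 ^ d := by simp

lemma abs_h_le {p α : ℝ} (hp : 1 < p) (h0 : 0 < α) (h1 : α * 2 ^ p ≤ 1 / 4) (h2 : α ≤ 1 / 4)
    (x : Fin n → Fin d → ℝ) (t : Fin d → ℝ) : |h p α x t| ≤ 3 ^ d * 2 ^ d := by
  classical
  unfold h
  calc _ ≤ ∑ ω ∈ Finset.univ.filter (Good x), |∏ j, U p α (ω j) (t j)| :=
        Finset.abs_sum_le_sum_abs _ _
    _ ≤ ∑ ω : Fin d → Fin 3, (2:ℝ) ^ d := by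
        refine (Finset.sum_le_sum fun ω _ => abs_prod_U_le hp h0 h1 h2 ω t).trans ?_
        exact Finset.sum_le_sum_of_subset_of_nonneg (Finset.filter_subset _ _)
          (fun _ _ _ => by positivity)
    _ = 3 ^ d * 2 ^ d := by simp

lemma abs_B_le' {p α : ℝ} (hp : 1 < p) (h0 : 0 < α) (h1 : α * 2 ^ p ≤ 1 / 4) (h2 : α ≤ 1 / 4)
    (x : Fin n → Fin d → ℝ) (t : Fin d → ℝ) : |B p α x t| ≤ 3 ^ d * 2 ^ d := by
  classical
  unfold B
  calc _ ≤ ∑ ω ∈ Finset.univ.filter (fun ω => ¬ Good x ω), |∏ j, U p α (ω j) (t j)| :=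
        Finset.abs_sum_le_sum_abs _ _
    _ ≤ ∑ ω : Fin d → Fin 3, (2:ℝ) ^ d := by
        refine (Finset.sum_le_sum fun ω _ => abs_prod_U_le hp h0 h1 h2 ω t).trans ?_
        exact Finset.sum_le_sum_of_subset_of_nonneg (Finset.filter_subset _ _)
          (fun _ _ _ => by positivity)
    _ = 3 ^ d * 2 ^ d := by simp

/-- the test function is orthogonal to all the indicator functions -/
lemma integral_ind_mul_h {p α : ℝ} (hp : 1 < p) (h0 : 0 < α) (h1 : α * 2 ^ p ≤ 1 / 4)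
    (h2 : α ≤ 1 / 4) (x : Fin n → Fin d → ℝ) (i : Fin n) :
    ∫ t in Icc (0 : Fin d → ℝ) 1,
      Set.indicator {y : Fin d → ℝ | ∀ j, x i j < y j} (fun _ => (1 : ℝ)) t * h p α x t = 0 := by
  classical
  unfold h
  simp_rw [Finset.mul_sum]
  rw [integral_finsetSum]
  · refine Finset.sum_eq_zero fun ω hω => ?_
    obtain ⟨j, hj⟩ := (Finset.mem_filter.1 hω).2 i
    simp_rw [indicator_eq_prod, ← Finset.prod_mul_distrib]
    rw [cube_prod (fun j s => (Ioi (x i j)).indicator (fun _ => (1:ℝ)) s * U p α (ω j) s)]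
    refine Finset.prod_eq_zero (Finset.mem_univ j) ?_
    rw [hj]
    exact kill hp
  · intro ω _
    refine int_cube ((measurable_ind _).mul (Finset.measurable_prod _ fun j _ =>
      (measurable_U p α (ω j)).comp (measurable_pi_apply j))) (1 * 2 ^ d) fun t _ => ?_
    rw [abs_mul]
    exact mul_le_mul (abs_ind_le _ _) (abs_prod_U_le hp h0 h1 h2 ω t) (abs_nonneg _) zero_le_one

lemma int_rpow {r : ℝ} (hr : 0 < r) : ∫ t in Icc (0:ℝ) 1, t ^ r = 1 / (r + 1) := by
  rw [integral_Icc_eq_integral_Ioc, ← intervalIntegral.integral_of_le zero_le_one,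
    integral_rpow (Or.inl (by linarith)), Real.one_rpow, Real.zero_rpow (by linarith), sub_zero]

/-- one-dimensional Hölder estimate -/
lemma int_mul_S_le {p q α κ : ℝ} (hpq : p.HolderConjugate q) (h0 : 0 < α)
    (h1 : α * 2 ^ p ≤ 1 / 4) (h2 : α ≤ 1 / 4) (hκ : 0 < κ)
    (hS : ∀ x : ℝ, ∫ t in Icc (0:ℝ) 1, (S p α x t) ^ q ≤ κ ^ q / (p + 1)) (x : ℝ) :
    ∫ t in Icc (0:ℝ) 1, t * S p α x t ≤ κ / (p + 1) := by
  have hp := hpq.lt
  have hq := hpq.symm.lt
  have hp0 : 0 < p := by linarith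
  have hq0 : 0 < q := by linarith
  have hp1 : 0 < p + 1 := by linarith
  have h3 : ∫ t in Icc (0:ℝ) 1, t * S p α x t ≤ (∫ t in Icc (0:ℝ) 1, t ^ p) ^ (1 / p) *
      (∫ t in Icc (0:ℝ) 1, (S p α x t) ^ q) ^ (1 / q) := by
    refine integral_mul_le_Lp_mul_Lq_of_nonneg hpq ?_ ?_ ?_ ?_
    · rw [EventuallyLE, ae_restrict_iff' measurableSet_Icc]
      exact ae_of_all _ fun t ht => ht.1
    · exact ae_of_all _ fun t => S_nonneg _ _ _ _
    · exact memLp_unit measurable_id 1 (fun t ht => by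
        simp only [id]; rw [abs_of_nonneg ht.1]; exact ht.2) _
    · exact memLp_unit (measurable_S _ _ _) 6 (fun t _ => by
        rw [abs_of_nonneg (S_nonneg _ _ _ _)]; exact S_le hp h0 h1 h2 x t) _
  refine h3.trans ?_
  rw [int_rpow hp0]
  have h4 : 0 ≤ ∫ t in Icc (0:ℝ) 1, (S p α x t) ^ q :=
    integral_nonneg fun t => Real.rpow_nonneg (S_nonneg _ _ _ _) _
  have h5 : (∫ t in Icc (0:ℝ) 1, (S p α x t) ^ q) ^ (1 / q) ≤ (κ ^ q / (p + 1)) ^ (1 / q) :=
    Real.rpow_le_rpow h4 (hS x) (by positivity)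
  have h6 : (κ ^ q / (p + 1)) ^ (1 / q) = κ * (1 / (p + 1)) ^ (1 / q) := by
    rw [div_eq_mul_one_div, Real.mul_rpow (by positivity) (by positivity), ← Real.rpow_mul hκ.le,
      mul_one_div_cancel hq0.ne', Real.rpow_one]
  calc (1 / (p + 1)) ^ (1 / p) * (∫ t in Icc (0:ℝ) 1, (S p α x t) ^ q) ^ (1 / q)
      ≤ (1 / (p + 1)) ^ (1 / p) * (κ * (1 / (p + 1)) ^ (1 / q)) := by
        rw [← h6]; gcongr
    _ = κ * ((1 / (p + 1)) ^ (1 / p) * (1 / (p + 1)) ^ (1 / q)) := by ring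
    _ = κ * (1 / (p + 1)) := by
        rw [← Real.rpow_add (by positivity)]
        have : 1 / p + 1 / q = 1 := by
          have := hpq.inv_add_inv_eq_one
          simpa [one_div] using this
        rw [this, Real.rpow_one]
    _ = κ / (p + 1) := by ring

end Pool.Agent.H298R3.Lp
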