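import Pool.Agent.H298R3.Lp.Cube

set_option autoImplicit false

/-!
# The curse of dimensionality for `L_p`-discrepancy with real weights: main estimate
-/

open MeasureTheory Set Filter Topology

namespace Pool.Agent.H298R3.Lp

variable {d n : ℕ}

/-- weighted discrepancy function -/
noncomputable def Disc (x : Fin n → Fin d → ℝ) (a : Fin n → ℝ) (t : Fin d → ℝ) : ℝ :=
  (∏ i, t i) - ∑ j, a j * Set.indicator {y : Fin d → ℝ | ∀ i, x j i < y i} (fun _ => (1 : ℝ)) t

lemma measurable_Disc (x : Fin n → Fin d → ℝ) (a : Fin n → ℝ) : Measurable (Disc x a) := by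
  unfold Disc
  refine (Finset.measurable_prod _ fun j _ => measurable_pi_apply j).sub ?_
  exact Finset.measurable_sum _ fun j _ => (measurable_ind _).const_mul _

lemma abs_prod_le_one {t : Fin d → ℝ} (ht : t ∈ Icc (0 : Fin d → ℝ) 1) : |∏ i, t i| ≤ 1 := by
  rw [abs_of_nonneg (Finset.prod_nonneg fun i _ => ht.1 i)]
  exact Finset.prod_le_one (fun i _ => ht.1 i) fun i _ => ht.2 i

lemma abs_Disc_le (x : Fin n → Fin d → ℝ) (a : Fin n → ℝ) {t : Fin d → ℝ}
    (ht : t ∈ Icc (0 : Fin d → ℝ) 1) : |Disc x a t| ≤ 1 + ∑ j, |a j| := by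
  unfold Disc
  refine (abs_sub _ _).trans (add_le_add (abs_prod_le_one ht) ?_)
  refine (Finset.abs_sum_le_sum_abs _ _).trans (Finset.sum_le_sum fun j _ => ?_)
  rw [abs_mul]
  exact mul_le_of_le_one_right (abs_nonneg _) (abs_ind_le _ _)

section main

variable {p q α κ : ℝ} (hpq : p.HolderConjugate q) (h0 : 0 < α)
    (h1 : α * 2 ^ p ≤ 1 / 4) (h2 : α ≤ 1 / 4) (hκ : 0 < κ)
    (hS : ∀ x : ℝ, ∫ t in Icc (0:ℝ) 1, (S p α x t) ^ q ≤ κ ^ q / (p + 1))
    (x : Fin n → Fin d → ℝ) (a : Fin n → ℝ)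

include hpq h0 h1 h2

lemma int_Disc_mul_h :
    ∫ t in Icc (0 : Fin d → ℝ) 1, Disc x a t * h p α x t =
      ∫ t in Icc (0 : Fin d → ℝ) 1, (∏ i, t i) * h p α x t := by
  have hp := hpq.lt
  have hi1 : IntegrableOn (fun t => (∏ i, t i) * h p α x t) (Icc (0 : Fin d → ℝ) 1) := by
    refine int_cube ((Finset.measurable_prod _ fun j _ => measurable_pi_apply j).mul
      (measurable_h _ _ _)) (1 * (3 ^ d * 2 ^ d)) fun t ht => ?_
    rw [abs_mul]
    exact mul_le_mul (abs_prod_le_one ht) (abs_h_le hp h0 h1 h2 x t) (abs_nonneg _) zero_le_one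
  have hi2 : ∀ j, IntegrableOn (fun t => a j *
      (Set.indicator {y : Fin d → ℝ | ∀ i, x j i < y i} (fun _ => (1 : ℝ)) t * h p α x t))
      (Icc (0 : Fin d → ℝ) 1) := by
    intro j
    refine Integrable.const_mul ?_ _
    refine int_cube ((measurable_ind _).mul (measurable_h _ _ _)) (1 * (3 ^ d * 2 ^ d))
      fun t ht => ?_
    rw [abs_mul]
    exact mul_le_mul (abs_ind_le _ _) (abs_h_le hp h0 h1 h2 x t) (abs_nonneg _) zero_le_one
  have e : ∀ t, Disc x a t * h p α x t = (∏ i, t i) * h p α x t -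
      ∑ j, a j * (Set.indicator {y : Fin d → ℝ | ∀ i, x j i < y i} (fun _ => (1 : ℝ)) t
        * h p α x t) := by
    intro t
    unfold Disc
    rw [sub_mul, Finset.sum_mul]
    congr 1
    exact Finset.sum_congr rfl fun j _ => by ring
  simp_rw [e]
  rw [integral_sub hi1 (integrable_finsetSum _ fun j _ => hi2 j),
    integral_finsetSum _ (fun j _ => hi2 j)]
  have : ∀ j, ∫ t in Icc (0 : Fin d → ℝ) 1, a j *
      (Set.indicator {y : Fin d → ℝ | ∀ i, x j i < y i} (fun _ => (1 : ℝ)) t * h p α x t) = 0 := by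
    intro j
    rw [integral_const_mul, integral_ind_mul_h hp h0 h1 h2 x j, mul_zero]
  simp [this]

include hκ hS

lemma int_prod_mul_B_le :
    ∫ t in Icc (0 : Fin d → ℝ) 1, (∏ i, t i) * |B p α x t| ≤ n * (κ / (p + 1)) ^ d := by
  have hp := hpq.lt
  have hp1 : 0 < p + 1 := by linarith
  have hprodS : ∀ i, IntegrableOn (fun t : Fin d → ℝ => ∏ j, (t j * S p α (x i j) (t j)))
      (Icc (0 : Fin d → ℝ) 1) := by
    intro i
    refine int_cube (Finset.measurable_prod _ fun j _ => (measurable_pi_apply j).mul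
      ((measurable_S p α (x i j)).comp (measurable_pi_apply j))) (∏ _j : Fin d, (1 * 6))
      fun t ht => ?_
    rw [Finset.abs_prod]
    refine Finset.prod_le_prod (fun _ _ => abs_nonneg _) fun j _ => ?_
    rw [abs_mul, abs_of_nonneg (ht.1 j), abs_of_nonneg (S_nonneg _ _ _ _)]
    exact mul_le_mul (ht.2 j) (S_le hp h0 h1 h2 _ _) (S_nonneg _ _ _ _) zero_le_one
  calc ∫ t in Icc (0 : Fin d → ℝ) 1, (∏ i, t i) * |B p α x t|
      ≤ ∫ t in Icc (0 : Fin d → ℝ) 1, ∑ i, ∏ j, (t j * S p α (x i j) (t j)) := by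
        refine setIntegral_mono_on ?_ ?_ measurableSet_Icc fun t ht => ?_
        · refine int_cube ((Finset.measurable_prod _ fun j _ => measurable_pi_apply j).mul
            (measurable_B _ _ _).abs) (1 * (3 ^ d * 2 ^ d)) fun t ht => ?_
          rw [abs_mul, abs_abs]
          exact mul_le_mul (abs_prod_le_one ht) (abs_B_le' hp h0 h1 h2 x t) (abs_nonneg _)
            zero_le_one
        · exact integrable_finsetSum _ fun i _ => hprodS i
        · simp_rw [Finset.prod_mul_distrib]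
          rw [← Finset.mul_sum]
          exact mul_le_mul_of_nonneg_left (abs_B_le x t)
            (Finset.prod_nonneg fun i _ => ht.1 i)
    _ = ∑ i, ∏ j, ∫ s in Icc (0:ℝ) 1, s * S p α (x i j) s := by
        rw [integral_finsetSum _ fun i _ => hprodS i]
        refine Finset.sum_congr rfl fun i _ => ?_
        exact cube_prod (fun j s => s * S p α (x i j) s)
    _ ≤ ∑ _i : Fin n, ∏ _j : Fin d, (κ / (p + 1)) := by
        refine Finset.sum_le_sum fun i _ => Finset.prod_le_prod (fun j _ => ?_) fun j _ => ?_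
        · refine setIntegral_nonneg measurableSet_Icc fun t ht => ?_
          exact mul_nonneg ht.1 (S_nonneg _ _ _ _)
        · exact int_mul_S_le hpq h0 h1 h2 hκ hS _
    _ = n * (κ / (p + 1)) ^ d := by
        simp only [Finset.prod_const, Finset.sum_const, Finset.card_univ, Fintype.card_fin,
          nsmul_eq_mul]

lemma int_Disc_mul_h_ge :
    (1 / (p + 1)) ^ d * (1 - n * κ ^ d) ≤
      ∫ t in Icc (0 : Fin d → ℝ) 1, Disc x a t * h p α x t := by
  have hp := hpq.lt
  have hp0 : 0 < p := by linarith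
  rw [int_Disc_mul_h hpq h0 h1 h2]
  have hi1 : IntegrableOn (fun t : Fin d → ℝ => (∏ i, t i) * |B p α x t|)
      (Icc (0 : Fin d → ℝ) 1) := by
    refine int_cube ((Finset.measurable_prod _ fun j _ => measurable_pi_apply j).mul
      (measurable_B _ _ _).abs) (1 * (3 ^ d * 2 ^ d)) fun t ht => ?_
    rw [abs_mul, abs_abs]
    exact mul_le_mul (abs_prod_le_one ht) (abs_B_le' hp h0 h1 h2 x t) (abs_nonneg _) zero_le_one
  have hi2 : IntegrableOn (fun t : Fin d → ℝ => ∏ i, t i ^ p) (Icc (0 : Fin d → ℝ) 1) := by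
    refine int_cube (Finset.measurable_prod _ fun j _ => (measurable_pi_apply j).pow_const _) 1
      fun t ht => ?_
    rw [Finset.abs_prod]
    refine Finset.prod_le_one (fun _ _ => abs_nonneg _) fun j _ => ?_
    rw [abs_of_nonneg (Real.rpow_nonneg (ht.1 j) _)]
    exact Real.rpow_le_one (ht.1 j) (ht.2 j) hp0.le
  have h3 : ∫ t in Icc (0 : Fin d → ℝ) 1, ((∏ i, t i ^ p) - (∏ i, t i) * |B p α x t|) ≤
      ∫ t in Icc (0 : Fin d → ℝ) 1, (∏ i, t i) * h p α x t := by
    refine setIntegral_mono_on (hi2.sub hi1) ?_ measurableSet_Icc fun t ht => ?_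
    · refine int_cube ((Finset.measurable_prod _ fun j _ => measurable_pi_apply j).mul
        (measurable_h _ _ _)) (1 * (3 ^ d * 2 ^ d)) fun t ht => ?_
      rw [abs_mul]
      exact mul_le_mul (abs_prod_le_one ht) (abs_h_le hp h0 h1 h2 x t) (abs_nonneg _) zero_le_one
    · have h4 := h_add_B (p := p) (α := α) x ht
      have h5 : h p α x t = (∏ j, t j ^ (p - 1)) - B p α x t := by linarith
      rw [h5, mul_sub, ← Finset.prod_mul_distrib]
      have h6 : ∀ j, t j * t j ^ (p - 1) = t j ^ p := by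
        intro j
        rcases eq_or_lt_of_le (ht.1 j) with h | h
        · have h' : t j = 0 := h.symm
          rw [h', zero_mul, Real.zero_rpow hp0.ne']
        · nth_rewrite 1 [← Real.rpow_one (t j)]
          rw [← Real.rpow_add h]
          congr 1; ring
      simp_rw [h6]
      have h7 : 0 ≤ ∏ i, t i := Finset.prod_nonneg fun i _ => ht.1 i
      have h8 : (∏ i, t i) * B p α x t ≤ (∏ i, t i) * |B p α x t| :=
        mul_le_mul_of_nonneg_left (le_abs_self _) h7
      linarith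
  refine le_trans ?_ h3
  rw [integral_sub hi2 hi1]
  have h4 := int_prod_mul_B_le hpq h0 h1 h2 hκ hS x
  have h5 : ∫ t in Icc (0 : Fin d → ℝ) 1, ∏ i, t i ^ p = (1 / (p + 1)) ^ d := by
    rw [cube_prod_const (fun s => s ^ p), int_rpow hp0]
  rw [h5]
  have h6 : (n:ℝ) * (κ / (p + 1)) ^ d = (1 / (p + 1)) ^ d * (n * κ ^ d) := by
    rw [div_eq_mul_one_div, mul_pow]; ring
  rw [h6] at h4
  linarith

lemma int_h_rpow_le (hn : n * κ ^ d ≤ 1) :
    ∫ t in Icc (0 : Fin d → ℝ) 1, |h p α x t| ^ q ≤ 2 ^ q * (1 / (p + 1)) ^ d := by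
  have hp := hpq.lt
  have hq := hpq.symm.lt
  have hp0 : 0 < p := by linarith
  have hq0 : 0 < q := by linarith
  have hp1 : 0 < p + 1 := by linarith
  have hprodS : ∀ i, IntegrableOn (fun t : Fin d → ℝ => ∏ j, (S p α (x i j) (t j)) ^ q)
      (Icc (0 : Fin d → ℝ) 1) := by
    intro i
    refine int_cube (Finset.measurable_prod _ fun j _ =>
      (((measurable_S p α (x i j)).comp (measurable_pi_apply j)).pow_const _))
      (∏ _j : Fin d, (6:ℝ) ^ q) fun t ht => ?_
    rw [Finset.abs_prod]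
    refine Finset.prod_le_prod (fun _ _ => abs_nonneg _) fun j _ => ?_
    rw [abs_of_nonneg (Real.rpow_nonneg (S_nonneg _ _ _ _) _)]
    exact Real.rpow_le_rpow (S_nonneg _ _ _ _) (S_le hp h0 h1 h2 _ _) hq0.le
  have hi2 : IntegrableOn (fun t : Fin d → ℝ => ∏ i, t i ^ p) (Icc (0 : Fin d → ℝ) 1) := by
    refine int_cube (Finset.measurable_prod _ fun j _ => (measurable_pi_apply j).pow_const _) 1
      fun t ht => ?_
    rw [Finset.abs_prod]
    refine Finset.prod_le_one (fun _ _ => abs_nonneg _) fun j _ => ?_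
    rw [abs_of_nonneg (Real.rpow_nonneg (ht.1 j) _)]
    exact Real.rpow_le_one (ht.1 j) (ht.2 j) hp0.le
  -- pointwise bound
  have hpt : ∀ t ∈ Icc (0 : Fin d → ℝ) 1, |h p α x t| ^ q ≤
      2 ^ (q - 1) * ((∏ i, t i ^ p) +
        (n:ℝ) ^ (q - 1) * ∑ i, ∏ j, (S p α (x i j) (t j)) ^ q) := by
    intro t ht
    set A : ℝ := ∏ j, t j ^ (p - 1) with hA
    set b : Fin n → ℝ := fun i => ∏ j, S p α (x i j) (t j) with hb
    have hA0 : 0 ≤ A := Finset.prod_nonneg fun j _ => Real.rpow_nonneg (ht.1 j) _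
    have hb0 : ∀ i, 0 ≤ b i := fun i => Finset.prod_nonneg fun j _ => S_nonneg _ _ _ _
    have h3 : |h p α x t| ≤ A + ∑ i, b i := by
      have h4 := h_add_B (p := p) (α := α) x ht
      have h5 : h p α x t = A - B p α x t := by rw [hA, ← h4]; ring
      rw [h5]
      refine (abs_sub _ _).trans (add_le_add (le_of_eq (abs_of_nonneg hA0)) (abs_B_le x t))
    have h4 : |h p α x t| ^ q ≤ (A + ∑ i, b i) ^ q :=
      Real.rpow_le_rpow (abs_nonneg _) h3 hq0.le
    have hs0 : 0 ≤ ∑ i, b i := Finset.sum_nonneg fun i _ => hb0 i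
    have h5 : (A + ∑ i, b i) ^ q ≤ 2 ^ (q - 1) * (A ^ q + (∑ i, b i) ^ q) := by
      have := Real.rpow_sum_le_const_mul_sum_rpow_of_nonneg (s := (Finset.univ : Finset (Fin 2)))
        (f := ![A, ∑ i, b i]) (p := q) hq.le (by
          intro i _
          fin_cases i
          · exact hA0
          · exact hs0)
      simpa [Fin.sum_univ_two] using this
    have h6 : (∑ i, b i) ^ q ≤ (n:ℝ) ^ (q - 1) * ∑ i, (b i) ^ q := by
      have := Real.rpow_sum_le_const_mul_sum_rpow_of_nonneg (s := (Finset.univ : Finset (Fin n)))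
        (f := b) (p := q) hq.le (fun i _ => hb0 i)
      simpa using this
    have h7 : A ^ q = ∏ i, t i ^ p := by
      rw [hA, ← Real.finsetProd_rpow _ _ (fun j _ => Real.rpow_nonneg (ht.1 j) _)]
      exact Finset.prod_congr rfl fun j _ => rpow_conj hpq (ht.1 j)
    have h8 : ∀ i, (b i) ^ q = ∏ j, (S p α (x i j) (t j)) ^ q := by
      intro i
      rw [hb, ← Real.finsetProd_rpow _ _ (fun j _ => S_nonneg _ _ _ _)]
    calc |h p α x t| ^ q ≤ 2 ^ (q - 1) * (A ^ q + (∑ i, b i) ^ q) := h4.trans h5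
      _ ≤ 2 ^ (q - 1) * (A ^ q + (n:ℝ) ^ (q - 1) * ∑ i, (b i) ^ q) := by gcongr
      _ = _ := by rw [h7]; simp_rw [h8]
  calc ∫ t in Icc (0 : Fin d → ℝ) 1, |h p α x t| ^ q
      ≤ ∫ t in Icc (0 : Fin d → ℝ) 1, (2 ^ (q - 1) * ((∏ i, t i ^ p) +
        (n:ℝ) ^ (q - 1) * ∑ i, ∏ j, (S p α (x i j) (t j)) ^ q)) := by
        refine setIntegral_mono_on ?_ ?_ measurableSet_Icc hpt
        · refine int_cube ((measurable_h _ _ _).abs.pow_const _) ((3 ^ d * 2 ^ d) ^ q)
            fun t ht => ?_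
          rw [abs_of_nonneg (Real.rpow_nonneg (abs_nonneg _) _)]
          exact Real.rpow_le_rpow (abs_nonneg _) (abs_h_le hp h0 h1 h2 x t) hq0.le
        · exact (hi2.add ((integrable_finsetSum _ fun i _ => hprodS i).const_mul _)).const_mul _
    _ = 2 ^ (q - 1) * ((1 / (p + 1)) ^ d + (n:ℝ) ^ (q - 1) *
        ∑ i, ∏ j, ∫ s in Icc (0:ℝ) 1, (S p α (x i j) s) ^ q) := by
        rw [integral_const_mul, integral_add hi2
          ((integrable_finsetSum _ fun i _ => hprodS i).const_mul _), integral_const_mul,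
          integral_finsetSum _ fun i _ => hprodS i]
        congr 3
        · rw [cube_prod_const (fun s => s ^ p), int_rpow hp0]
        · refine Finset.sum_congr rfl fun i _ => ?_
          exact cube_prod (fun j s => (S p α (x i j) s) ^ q)
    _ ≤ 2 ^ (q - 1) * ((1 / (p + 1)) ^ d + (n:ℝ) ^ (q - 1) *
        ∑ _i : Fin n, ∏ _j : Fin d, (κ ^ q / (p + 1))) := by
        gcongr with i _ j _
        · exact fun j _ => setIntegral_nonneg measurableSet_Icc fun s _ =>
            Real.rpow_nonneg (S_nonneg _ _ _ _) _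
        · exact hS _
    _ = 2 ^ (q - 1) * (1 / (p + 1)) ^ d * (1 + (n:ℝ) ^ (q - 1) * n * (κ ^ q) ^ d) := by
        simp only [Finset.prod_const, Finset.sum_const, Finset.card_univ, Fintype.card_fin,
          nsmul_eq_mul]
        rw [div_eq_mul_one_div (κ ^ q), mul_pow]
        ring
    _ ≤ 2 ^ (q - 1) * (1 / (p + 1)) ^ d * 2 := by
        have h3 : (n:ℝ) ^ (q - 1) * n * (κ ^ q) ^ d = (n * κ ^ d) ^ q := by
          rw [Real.mul_rpow (by positivity) (by positivity)]
          have h4 : (n:ℝ) ^ (q - 1) * n = (n:ℝ) ^ q := by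
            rcases Nat.eq_zero_or_pos n with h | h
            · rw [h]; simp [Real.zero_rpow hq0.ne']
            · have hn0 : (0:ℝ) < n := by exact_mod_cast h
              rw [Real.rpow_sub_one hn0.ne']
              field_simp
          rw [h4]
          congr 1
          rw [← Real.rpow_natCast, ← Real.rpow_mul hκ.le, ← Real.rpow_natCast,
            ← Real.rpow_mul hκ.le, mul_comm]
        rw [h3]
        have h5 : (n * κ ^ d) ^ q ≤ 1 :=
          Real.rpow_le_one (by positivity) hn hq0.le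
        gcongr
        linarith
    _ = 2 ^ q * (1 / (p + 1)) ^ d := by
        rw [Real.rpow_sub_one (by norm_num)]
        ring

/-- lower bound for the discrepancy -/
lemma disc_lower (hn : n * κ ^ d ≤ 1 / 2) :
    (1 / 4) ^ p * (1 / (p + 1)) ^ d ≤
      ∫ t in Icc (0 : Fin d → ℝ) 1, |Disc x a t| ^ p := by
  have hp := hpq.lt
  have hq := hpq.symm.lt
  have hp0 : 0 < p := by linarith
  have hq0 : 0 < q := by linarith
  have hp1 : 0 < p + 1 := by linarith
  have h3 := int_Disc_mul_h_ge hpq h0 h1 h2 hκ hS x a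
  have h4 := int_h_rpow_le hpq h0 h1 h2 hκ hS x (hn.trans (by norm_num))
  set M : ℝ := (1 / (p + 1)) ^ d with hM
  have hM0 : 0 < M := by positivity
  have h5 : ∫ t in Icc (0 : Fin d → ℝ) 1, Disc x a t * h p α x t ≤
      ∫ t in Icc (0 : Fin d → ℝ) 1, |Disc x a t| * |h p α x t| := by
    refine setIntegral_mono_on ?_ ?_ measurableSet_Icc fun t _ => ?_
    · refine int_cube ((measurable_Disc x a).mul (measurable_h _ _ _))
        ((1 + ∑ j, |a j|) * (3 ^ d * 2 ^ d)) fun t ht => ?_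
      rw [abs_mul]
      exact mul_le_mul (abs_Disc_le x a ht) (abs_h_le hp h0 h1 h2 x t) (abs_nonneg _)
        (by positivity)
    · refine int_cube ((measurable_Disc x a).abs.mul (measurable_h _ _ _).abs)
        ((1 + ∑ j, |a j|) * (3 ^ d * 2 ^ d)) fun t ht => ?_
      rw [abs_mul, abs_abs, abs_abs]
      exact mul_le_mul (abs_Disc_le x a ht) (abs_h_le hp h0 h1 h2 x t) (abs_nonneg _)
        (by positivity)
    · rw [← abs_mul]; exact le_abs_self _
  have h6 : ∫ t in Icc (0 : Fin d → ℝ) 1, |Disc x a t| * |h p α x t| ≤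
      (∫ t in Icc (0 : Fin d → ℝ) 1, |Disc x a t| ^ p) ^ (1 / p) *
      (∫ t in Icc (0 : Fin d → ℝ) 1, |h p α x t| ^ q) ^ (1 / q) := by
    refine integral_mul_le_Lp_mul_Lq_of_nonneg hpq (ae_of_all _ fun t => abs_nonneg _)
      (ae_of_all _ fun t => abs_nonneg _) ?_ ?_
    · exact memLp_cube (measurable_Disc x a).abs (1 + ∑ j, |a j|)
        (fun t ht => by rw [abs_abs]; exact abs_Disc_le x a ht) _
    · exact memLp_cube (measurable_h _ _ _).abs (3 ^ d * 2 ^ d)
        (fun t ht => by rw [abs_abs]; exact abs_h_le hp h0 h1 h2 x t) _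
  set I : ℝ := ∫ t in Icc (0 : Fin d → ℝ) 1, |Disc x a t| ^ p with hI
  have hI0 : 0 ≤ I := integral_nonneg fun t => Real.rpow_nonneg (abs_nonneg _) _
  have h7 : (∫ t in Icc (0 : Fin d → ℝ) 1, |h p α x t| ^ q) ^ (1 / q) ≤ 2 * M ^ (1 / q) := by
    have h8 : (2 ^ q * M) ^ (1 / q) = 2 * M ^ (1 / q) := by
      rw [Real.mul_rpow (by positivity) hM0.le, ← Real.rpow_mul (by norm_num),
        mul_one_div_cancel hq0.ne', Real.rpow_one]
    rw [← h8]
    exact Real.rpow_le_rpow (integral_nonneg fun t => Real.rpow_nonneg (abs_nonneg _) _) h4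
      (by positivity)
  have h9 : M * (1 / 2) ≤ I ^ (1 / p) * (2 * M ^ (1 / q)) := by
    calc M * (1 / 2) ≤ M * (1 - n * κ ^ d) := by gcongr; linarith
      _ ≤ _ := h3
      _ ≤ _ := h5
      _ ≤ _ := h6
      _ ≤ _ := by gcongr
  have hMq : M = M ^ (1 / p) * M ^ (1 / q) := by
    rw [← Real.rpow_add hM0]
    have : 1 / p + 1 / q = 1 := by
      have := hpq.inv_add_inv_eq_one
      simpa [one_div] using this
    rw [this, Real.rpow_one]
  have hMq0 : 0 < M ^ (1 / q) := by positivity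
  have h10 : M ^ (1 / p) * (1 / 4) ≤ I ^ (1 / p) := by
    have h11 : M ^ (1 / p) * (1 / 4) * (2 * M ^ (1 / q)) ≤ I ^ (1 / p) * (2 * M ^ (1 / q)) := by
      calc M ^ (1 / p) * (1 / 4) * (2 * M ^ (1 / q))
          = (M ^ (1 / p) * M ^ (1 / q)) * (1 / 2) := by ring
        _ = M * (1 / 2) := by rw [← hMq]
        _ ≤ _ := h9
    exact le_of_mul_le_mul_right h11 (by positivity)
  have h12 : (M ^ (1 / p) * (1 / 4)) ^ p ≤ (I ^ (1 / p)) ^ p :=
    Real.rpow_le_rpow (by positivity) h10 hp0.le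
  rw [Real.mul_rpow (by positivity) (by norm_num), ← Real.rpow_mul hM0.le,
    ← Real.rpow_mul hI0, one_div_mul_cancel hp0.ne', Real.rpow_one, Real.rpow_one] at h12
  linarith

end main

/-- the curse of dimensionality -/
theorem curse {p : ℝ} (hp : 1 < p) :
    ∃ τ : ℝ, 0 < τ ∧ ∀ d : ℕ, ∀ ε : ℝ, 0 < ε → ε ≤ 1 / 5 → ∀ n : ℕ, ∀ x : Fin n → Fin d → ℝ,
      ∀ a : Fin n → ℝ,
      (∫ t in Icc (0 : Fin d → ℝ) 1, |Disc x a t| ^ p) ≤
        ε ^ p * ∫ t in Icc (0 : Fin d → ℝ) 1, |∏ i, t i| ^ p →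
      1 / 2 * (1 + τ) ^ d ≤ (n : ℝ) := by
  have hpq : p.HolderConjugate (p / (p - 1)) := Real.HolderConjugate.conjExponent hp
  obtain ⟨α, h0, h1, h2, κ, hκ, hκ1, hS⟩ := S_norm hpq
  have hp0 : 0 < p := by linarith
  have hp1 : 0 < p + 1 := by linarith
  refine ⟨1 / κ - 1, ?_, ?_⟩
  · have : 1 < 1 / κ := by rw [lt_div_iff₀ hκ]; linarith
    linarith
  intro d ε hε hε5 n x a hle
  have h3 : ∫ t in Icc (0 : Fin d → ℝ) 1, |∏ i, t i| ^ p = (1 / (p + 1)) ^ d := by
    rw [← int_rpow hp0, ← cube_prod_const (fun s => s ^ p)]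
    refine setIntegral_congr_fun measurableSet_Icc fun t ht => ?_
    show |∏ i, t i| ^ p = ∏ i, t i ^ p
    rw [abs_of_nonneg (Finset.prod_nonneg fun i _ => ht.1 i),
      ← Real.finsetProd_rpow _ _ (fun j _ => ht.1 j)]
  rw [h3] at hle
  by_contra hcon
  push Not at hcon
  have hn : n * κ ^ d ≤ 1 / 2 := by
    have h4 : (1 + (1 / κ - 1)) ^ d = 1 / κ ^ d := by
      rw [add_sub_cancel, one_div_pow]
    rw [h4] at hcon
    have hk : 0 < κ ^ d := by positivity
    calc n * κ ^ d ≤ (1 / 2 * (1 / κ ^ d)) * κ ^ d := by gcongr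
      _ = 1 / 2 := by field_simp
  have h5 := disc_lower hpq h0 h1 h2 hκ hS x a hn
  have hM0 : 0 < (1 / (p + 1)) ^ d := by positivity
  have h6 : ε ^ p < (1 / 4 : ℝ) ^ p := by
    calc ε ^ p ≤ (1 / 5 : ℝ) ^ p := Real.rpow_le_rpow hε.le hε5 hp0.le
      _ < (1 / 4 : ℝ) ^ p := Real.rpow_lt_rpow (by norm_num) (by norm_num) hp0
  have h7 : ε ^ p * (1 / (p + 1)) ^ d < (1 / 4 : ℝ) ^ p * (1 / (p + 1)) ^ d := by gcongr
  linarith

end Pool.Agent.H298R3.Lp
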