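import Mathlib

set_option autoImplicit false

/-!
# One-dimensional building blocks for the curse of dimensionality of `L_p`-discrepancy
-/

open MeasureTheory Set Filter Topology

namespace Pool.Agent.H298R3.Lp

/-- three-step function with steps at `1/4` and `1/2` -/
noncomputable def step (a b c t : ℝ) : ℝ := if t < 1 / 4 then a else if t < 1 / 2 then b else c

lemma measurable_step (a b c : ℝ) : Measurable (step a b c) := by
  unfold step
  refine Measurable.ite measurableSet_Iio measurable_const ?_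
  exact Measurable.ite measurableSet_Iio measurable_const measurable_const

lemma int_Ico {a b r : ℝ} (hab : a ≤ b) (hr : 0 < r) :
    ∫ t in Ico a b, t ^ r = (b ^ (r + 1) - a ^ (r + 1)) / (r + 1) := by
  rw [integral_Ico_eq_integral_Ioo, ← integral_Ioc_eq_integral_Ioo,
    ← intervalIntegral.integral_of_le hab, integral_rpow (Or.inl (by linarith))]

noncomputable def m0 (r : ℝ) : ℝ := (1 / 4 : ℝ) ^ (r + 1) / (r + 1)
noncomputable def m1 (r : ℝ) : ℝ := ((1 / 2 : ℝ) ^ (r + 1) - (1 / 4 : ℝ) ^ (r + 1)) / (r + 1)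
noncomputable def m2 (r : ℝ) : ℝ := (1 - (1 / 2 : ℝ) ^ (r + 1)) / (r + 1)

lemma int_step {r : ℝ} (hr : 0 < r) (a b c : ℝ) :
    ∫ t in Icc (0 : ℝ) 1, step a b c t * t ^ r = a * m0 r + b * m1 r + c * m2 r := by
  have hI : ∀ (a b : ℝ), IntegrableOn (fun t : ℝ => t ^ r) (Ico a b) := by
    intro a b
    refine IntegrableOn.mono_set (t := Icc a b) ?_ Ico_subset_Icc_self
    refine ContinuousOn.integrableOn_compact isCompact_Icc ?_
    exact (Real.continuous_rpow_const hr.le).continuousOn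
  have e1 : EqOn (fun t => step a b c t * t ^ r) (fun t => a * t ^ r) (Ico 0 (1 / 4)) := by
    intro t ht
    simp only [step]
    rw [if_pos ht.2]
  have e2 : EqOn (fun t => step a b c t * t ^ r) (fun t => b * t ^ r) (Ico (1 / 4) (1 / 2)) := by
    intro t ht
    simp only [step]
    rw [if_neg (not_lt.2 ht.1), if_pos ht.2]
  have e3 : EqOn (fun t => step a b c t * t ^ r) (fun t => c * t ^ r) (Ico (1 / 2) 1) := by
    intro t ht
    simp only [step]
    have h1 : ¬ t < 1 / 4 := by have := ht.1; linarith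
    rw [if_neg h1, if_neg (not_lt.2 ht.1)]
  have i1 : IntegrableOn (fun t => step a b c t * t ^ r) (Ico 0 (1 / 4)) :=
    IntegrableOn.congr_fun ((hI _ _).const_mul a) e1.symm measurableSet_Ico
  have i2 : IntegrableOn (fun t => step a b c t * t ^ r) (Ico (1 / 4) (1 / 2)) :=
    IntegrableOn.congr_fun ((hI _ _).const_mul b) e2.symm measurableSet_Ico
  have i3 : IntegrableOn (fun t => step a b c t * t ^ r) (Ico (1 / 2) 1) :=
    IntegrableOn.congr_fun ((hI _ _).const_mul c) e3.symm measurableSet_Ico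
  have hsplit1 : Ico (0 : ℝ) 1 = Ico 0 (1 / 4) ∪ (Ico (1 / 4) (1 / 2) ∪ Ico (1 / 2) 1) := by
    rw [Ico_union_Ico_eq_Ico (by norm_num) (by norm_num),
      Ico_union_Ico_eq_Ico (by norm_num) (by norm_num)]
  rw [integral_Icc_eq_integral_Ico, hsplit1, setIntegral_union, setIntegral_union,
    setIntegral_congr_fun measurableSet_Ico e1, setIntegral_congr_fun measurableSet_Ico e2,
    setIntegral_congr_fun measurableSet_Ico e3, integral_const_mul, integral_const_mul,
    integral_const_mul, int_Ico (by norm_num) hr, int_Ico (by norm_num) hr,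
    int_Ico (by norm_num) hr]
  · have h0 : (0 : ℝ) ^ (r + 1) = 0 := Real.zero_rpow (by linarith)
    rw [h0, Real.one_rpow]
    unfold m0 m1 m2
    ring
  · exact Ico_disjoint_Ico_same
  · exact measurableSet_Ico
  · exact i2
  · exact i3
  · rw [Ico_union_Ico_eq_Ico (by norm_num) (by norm_num)]
    exact Ico_disjoint_Ico_same
  · exact measurableSet_Ico.union measurableSet_Ico
  · exact i1
  · exact i2.union i3

lemma m0_pos {r : ℝ} (hr : 0 < r) : 0 < m0 r := by unfold m0; positivity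

lemma m1_pos {r : ℝ} (hr : 0 < r) : 0 < m1 r := by
  unfold m1
  have : (1 / 4 : ℝ) ^ (r + 1) < (1 / 2 : ℝ) ^ (r + 1) :=
    Real.rpow_lt_rpow (by norm_num) (by norm_num) (by linarith)
  have h2 : 0 < r + 1 := by linarith
  apply div_pos _ h2
  linarith

lemma sum_m {r : ℝ} (hr : 0 < r) : m0 r + m1 r + m2 r = 1 / (r + 1) := by
  unfold m0 m1 m2
  have h2 : r + 1 ≠ 0 := by linarith
  field_simp
  ring

lemma quarter_rpow (s : ℝ) : (1 / 4 : ℝ) ^ s = (1 / 2 : ℝ) ^ s * (1 / 2 : ℝ) ^ s := by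
  rw [← Real.mul_rpow (by norm_num) (by norm_num)]; norm_num

lemma two_rpow_mul_half (s : ℝ) : (2 : ℝ) ^ s * (1 / 2 : ℝ) ^ s = 1 := by
  rw [← Real.mul_rpow (by norm_num) (by norm_num)]; norm_num

/-- `∫ h₁ t^{p-1} = 0` -/
lemma kill_identity {p : ℝ} (hp : 1 < p) : (2 : ℝ) ^ p * m1 (p - 1) = m2 (p - 1) := by
  unfold m1 m2
  have h1 : p - 1 + 1 = p := by ring
  rw [h1, quarter_rpow]
  have h3 := two_rpow_mul_half p
  rw [← mul_div_assoc]
  congr 1
  calc (2:ℝ) ^ p * ((1/2:ℝ)^p - (1/2:ℝ)^p * (1/2:ℝ)^p)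
      = (2:ℝ) ^ p * (1/2:ℝ)^p * (1 - (1/2:ℝ)^p) := by ring
    _ = _ := by rw [h3, one_mul]

/-- the first order gain -/
lemma gain {p : ℝ} (hp : 1 < p) : (2 : ℝ) ^ p * m1 p < m2 p := by
  unfold m1 m2
  rw [quarter_rpow]
  have hh : (1 / 2 : ℝ) ^ (p + 1) = (1 / 2) ^ p * (1 / 2) := by
    rw [Real.rpow_add (by norm_num), Real.rpow_one]
  have h3 := two_rpow_mul_half p
  have h2 : 0 < p + 1 := by linarith
  rw [← mul_div_assoc, div_lt_div_iff_of_pos_right h2, hh]
  set s : ℝ := (1 / 2) ^ p with hs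
  have hs0 : 0 < s := by rw [hs]; positivity
  have hs1 : s < 1 := by
    rw [hs]; exact Real.rpow_lt_one (by norm_num) (by norm_num) (by linarith)
  have : (2:ℝ) ^ p * (s * (1/2) - s * (1/2) * (s * (1/2))) = 1/2 - s / 4 := by
    calc (2:ℝ) ^ p * (s * (1/2) - s * (1/2) * (s * (1/2)))
        = (2:ℝ) ^ p * s * (1/2 - s / 4) := by ring
      _ = _ := by rw [h3, one_mul]
  rw [this]
  linarith

/-- choice of the small parameter -/
lemma exists_alpha {p q : ℝ} (hp : 1 < p) (hq : 1 < q) :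
    ∃ α : ℝ, 0 < α ∧ α * 2 ^ p ≤ 1 / 4 ∧ α ≤ 1 / 4 ∧
      1 * m0 p + (1 + α * 2 ^ p) ^ q * m1 p + (1 - α) ^ q * m2 p < 1 / (p + 1) ∧
      (1 / 2 : ℝ) ^ q * m0 p + (1 + 2 * (α * 2 ^ p)) ^ q * m1 p + 1 * m2 p < 1 / (p + 1) := by
  have hp0 : 0 < p := by linarith
  -- first function
  have hd1 : HasDerivAt (fun α : ℝ => 1 * m0 p + (1 + α * 2 ^ p) ^ q * m1 p + (1 - α) ^ q * m2 p)
      (q * (2 ^ p * m1 p - m2 p)) 0 := by
    have h1 : HasDerivAt (fun α : ℝ => (1 + α * 2 ^ p)) ((2:ℝ) ^ p) 0 := by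
      simpa using ((hasDerivAt_id (0:ℝ)).mul_const ((2:ℝ) ^ p)).const_add 1
    have h2 : HasDerivAt (fun α : ℝ => (1 - α)) (-1) 0 := by
      simpa using (hasDerivAt_id (0:ℝ)).const_sub 1
    have h3 := (h1.rpow_const (p := q) (Or.inl (by norm_num))).mul_const (m1 p)
    have h4 := (h2.rpow_const (p := q) (Or.inl (by norm_num))).mul_const (m2 p)
    have h5 := (h3.const_add (1 * m0 p)).add h4
    have h6 : q * ((2:ℝ) ^ p * m1 p - m2 p) = (2:ℝ) ^ p * q * (1 + (0:ℝ) * 2 ^ p) ^ (q - 1) * m1 p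
        + -1 * q * (1 - (0:ℝ)) ^ (q - 1) * m2 p := by
      rw [zero_mul, add_zero, sub_zero, Real.one_rpow]; ring
    rw [h6]
    exact h5
  have hneg : q * (2 ^ p * m1 p - m2 p) < 0 := by
    have := gain hp
    have hq0 : 0 < q := by linarith
    have h6 : 2 ^ p * m1 p - m2 p < 0 := by linarith
    exact mul_neg_of_pos_of_neg hq0 h6
  have hev1 : ∀ᶠ α in 𝓝[>] (0:ℝ),
      1 * m0 p + (1 + α * 2 ^ p) ^ q * m1 p + (1 - α) ^ q * m2 p < 1 / (p + 1) := by
    have hs := hd1.tendsto_slope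
    have hs' : Tendsto (slope (fun α : ℝ => 1 * m0 p + (1 + α * 2 ^ p) ^ q * m1 p
        + (1 - α) ^ q * m2 p) 0) (𝓝[>] 0) (𝓝 (q * (2 ^ p * m1 p - m2 p))) :=
      hs.mono_left (nhdsWithin_mono _ (fun x hx => ne_of_gt hx))
    filter_upwards [hs'.eventually_lt_const hneg, self_mem_nhdsWithin] with α h1 h2
    have h2' : (0:ℝ) < α := h2
    have h3 : 1 * m0 p + (1 + (0:ℝ) * 2 ^ p) ^ q * m1 p + (1 - (0:ℝ)) ^ q * m2 p
        = 1 / (p + 1) := by
      rw [zero_mul, add_zero, sub_zero, Real.one_rpow, ← sum_m hp0]; ring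
    rw [slope_def_field, h3, div_lt_iff₀ (by linarith)] at h1
    linarith
  have hev2 : ∀ᶠ α in 𝓝[>] (0:ℝ),
      (1 / 2 : ℝ) ^ q * m0 p + (1 + 2 * (α * 2 ^ p)) ^ q * m1 p + 1 * m2 p < 1 / (p + 1) := by
    have hc : ContinuousAt (fun α : ℝ => (1 / 2 : ℝ) ^ q * m0 p
        + (1 + 2 * (α * 2 ^ p)) ^ q * m1 p + 1 * m2 p) 0 := by
      have h1 : ContinuousAt (fun α : ℝ => (1 + 2 * (α * 2 ^ p))) 0 := by fun_prop
      have h2 := h1.rpow_const (p := q) (Or.inr (by linarith : (0:ℝ) ≤ q))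
      exact (continuousAt_const.add (h2.mul continuousAt_const)).add continuousAt_const
    have h3 : (1 / 2 : ℝ) ^ q * m0 p + (1 + 2 * ((0:ℝ) * 2 ^ p)) ^ q * m1 p + 1 * m2 p
        < 1 / (p + 1) := by
      rw [zero_mul, mul_zero, add_zero, Real.one_rpow, ← sum_m hp0]
      have h4 : (1 / 2 : ℝ) ^ q < 1 :=
        Real.rpow_lt_one (by norm_num) (by norm_num) (by linarith)
      have h5 := m0_pos hp0
      nlinarith
    exact (hc.eventually (gt_mem_nhds h3)).filter_mono nhdsWithin_le_nhds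
  have hev3 : ∀ᶠ α in 𝓝[>] (0:ℝ), α * 2 ^ p < 1 / 4 := by
    have hc : ContinuousAt (fun α : ℝ => α * (2:ℝ) ^ p) 0 := by fun_prop
    exact (hc.eventually (gt_mem_nhds (by simp))).filter_mono nhdsWithin_le_nhds
  have hev4 : ∀ᶠ α in 𝓝[>] (0:ℝ), α < 1 / 4 :=
    (gt_mem_nhds (by norm_num)).filter_mono nhdsWithin_le_nhds
  obtain ⟨α, h1, h2, h3, h4, h5⟩ :=
    (hev1.and (hev2.and (hev3.and (hev4.and self_mem_nhdsWithin)))).exists
  exact ⟨α, h5, h3.le, h4.le, h1, h2⟩

/-- the three functions of the decomposition of `t^{p-1}` on `[0,1]` -/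
noncomputable def U (p α : ℝ) (ω : Fin 3) (t : ℝ) : ℝ :=
  (Icc (0 : ℝ) 1).indicator (fun t => (match ω with
    | 0 => step (1 / 2) 0 0 t
    | 1 => step 0 (-(α * 2 ^ p)) α t
    | 2 => step (1 / 2) (1 + α * 2 ^ p) (1 - α) t) * t ^ (p - 1)) t

/-- the index killed by the point `x` -/
noncomputable def kk (x : ℝ) : Fin 3 := if x < 1 / 4 then 1 else 0

lemma measurable_U (p α : ℝ) (ω : Fin 3) : Measurable (U p α ω) := by
  unfold U
  refine Measurable.indicator ?_ measurableSet_Icc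
  refine Measurable.mul ?_ (measurable_id.pow_const _)
  fin_cases ω
  · exact measurable_step _ _ _
  · exact measurable_step _ _ _
  · exact measurable_step _ _ _

lemma abs_step_le {a b c M : ℝ} (ha : |a| ≤ M) (hb : |b| ≤ M) (hc : |c| ≤ M) (t : ℝ) :
    |step a b c t| ≤ M := by
  unfold step; split_ifs <;> assumption

lemma abs_U_le {p α : ℝ} (hp : 1 < p) (h0 : 0 < α) (h1 : α * 2 ^ p ≤ 1 / 4) (h2 : α ≤ 1 / 4)
    (ω : Fin 3) (t : ℝ) : |U p α ω t| ≤ 2 := by
  unfold U
  by_cases ht : t ∈ Icc (0:ℝ) 1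
  · rw [indicator_of_mem ht, abs_mul]
    have h3 : |t ^ (p - 1)| ≤ 1 := by
      rw [abs_of_nonneg (Real.rpow_nonneg ht.1 _)]
      exact Real.rpow_le_one ht.1 ht.2 (by linarith)
    have h6 : 0 < α * 2 ^ p := by positivity
    have h4 : |(match ω with
      | 0 => step (1 / 2) 0 0 t
      | 1 => step 0 (-(α * 2 ^ p)) α t
      | 2 => step (1 / 2) (1 + α * 2 ^ p) (1 - α) t)| ≤ 2 := by
      fin_cases ω
      · exact abs_step_le (by norm_num) (by norm_num) (by norm_num) t
      · exact abs_step_le (by norm_num) (by rw [abs_neg, abs_of_pos h6]; linarith)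
          (by rw [abs_of_pos h0]; linarith) t
      · exact abs_step_le (by norm_num) (by rw [abs_of_pos (by linarith)]; linarith)
          (by rw [abs_of_pos (by linarith)]; linarith) t
    calc _ ≤ 2 * 1 := mul_le_mul h4 h3 (abs_nonneg _) (by norm_num)
      _ = 2 := by norm_num
  · rw [indicator_of_notMem ht]; norm_num

lemma sum_U {p α t : ℝ} (ht : t ∈ Icc (0:ℝ) 1) : ∑ ω, U p α ω t = t ^ (p - 1) := by
  rw [Fin.sum_univ_three]
  unfold U
  simp only [indicator_of_mem ht]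
  unfold step
  split_ifs <;> ring

lemma kill {p α x : ℝ} (hp : 1 < p) :
    ∫ t in Icc (0:ℝ) 1, (Ioi x).indicator (fun _ => (1:ℝ)) t * U p α (kk x) t = 0 := by
  unfold kk
  split_ifs with hx
  · have h1 : ∫ t in Icc (0:ℝ) 1, (Ioi x).indicator (fun _ => (1:ℝ)) t * U p α 1 t =
        ∫ t in Icc (0:ℝ) 1, step 0 (-(α * 2 ^ p)) α t * t ^ (p - 1) := by
      refine setIntegral_congr_fun measurableSet_Icc fun t ht => ?_
      simp only [U, indicator_of_mem ht]
      by_cases h : x < t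
      · rw [indicator_of_mem (show t ∈ Ioi x from h), one_mul]
      · rw [indicator_of_notMem (show t ∉ Ioi x from h), zero_mul]
        have : t < 1 / 4 := by linarith [not_lt.1 h]
        unfold step
        rw [if_pos this, zero_mul]
    rw [h1, int_step (by linarith)]
    have h2 := kill_identity hp
    rw [zero_mul, zero_add, ← h2]
    ring
  · have h1 : ∫ t in Icc (0:ℝ) 1, (Ioi x).indicator (fun _ => (1:ℝ)) t * U p α 0 t =
        ∫ t in Icc (0:ℝ) 1, (0:ℝ) := by
      refine setIntegral_congr_fun measurableSet_Icc fun t ht => ?_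
      simp only [U, indicator_of_mem ht]
      by_cases h : x < t
      · have : ¬ t < 1 / 4 := by linarith [not_lt.1 hx]
        unfold step
        rw [if_neg this]
        split_ifs <;> simp
      · rw [indicator_of_notMem (show t ∉ Ioi x from h), zero_mul]
    rw [h1]; simp

/-- `S_x = ∑_{ω ≠ k(x)} |U_ω|` -/
noncomputable def S (p α x t : ℝ) : ℝ := ∑ ω ∈ Finset.univ.filter (fun ω => ω ≠ kk x), |U p α ω t|

lemma S_nonneg (p α x t : ℝ) : 0 ≤ S p α x t := Finset.sum_nonneg fun _ _ => abs_nonneg _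

lemma measurable_S (p α x : ℝ) : Measurable (S p α x) := by
  unfold S
  exact Finset.measurable_sum _ fun ω _ => (measurable_U p α ω).abs

lemma rpow_conj {p q t : ℝ} (hpq : p.HolderConjugate q) (ht : 0 ≤ t) :
    (t ^ (p - 1)) ^ q = t ^ p := by
  rw [← Real.rpow_mul ht]
  congr 1
  have := hpq.sub_one_mul_conj
  linarith

lemma S_norm {p q : ℝ} (hpq : p.HolderConjugate q) : ∃ α : ℝ, 0 < α ∧ α * 2 ^ p ≤ 1 / 4 ∧
    α ≤ 1 / 4 ∧ ∃ κ : ℝ, 0 < κ ∧ κ < 1 ∧ ∀ x : ℝ,
      ∫ t in Icc (0:ℝ) 1, (S p α x t) ^ q ≤ κ ^ q / (p + 1) := by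
  have hp : 1 < p := hpq.lt
  have hq : 1 < q := hpq.symm.lt
  obtain ⟨α, h0, h1, h2, h3, h4⟩ := exists_alpha hp hq
  refine ⟨α, h0, h1, h2, ?_⟩
  have h6 : 0 < α * 2 ^ p := by positivity
  have hA : ∀ x < 1 / 4, ∫ t in Icc (0:ℝ) 1, (S p α x t) ^ q =
      1 * m0 p + (1 + α * 2 ^ p) ^ q * m1 p + (1 - α) ^ q * m2 p := by
    intro x hx
    rw [← int_step (by linarith)]
    refine setIntegral_congr_fun measurableSet_Icc fun t ht => ?_
    have ht' : 0 ≤ t ^ (p - 1) := Real.rpow_nonneg ht.1 _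
    have hS : S p α x t = step 1 (1 + α * 2 ^ p) (1 - α) t * t ^ (p - 1) := by
      have hk : kk x = 1 := by unfold kk; rw [if_pos hx]
      have hf : (Finset.univ.filter (fun ω : Fin 3 => ω ≠ kk x)) = {0, 2} := by
        rw [hk]; decide
      unfold S
      rw [hf, Finset.sum_pair (by decide)]
      simp only [U, indicator_of_mem ht, abs_mul, abs_of_nonneg ht']
      rw [← add_mul]
      congr 1
      unfold step
      split_ifs
      · norm_num
      · rw [abs_zero, abs_of_pos (by linarith)]; ring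
      · rw [abs_zero, abs_of_pos (by linarith)]; ring
    show (S p α x t) ^ q = _
    rw [hS, Real.mul_rpow _ ht', rpow_conj hpq ht.1]
    · congr 1
      unfold step
      split_ifs
      · exact Real.one_rpow _
      · rfl
      · rfl
    · unfold step
      split_ifs <;> linarith
  have hB : ∀ x, ¬ x < 1 / 4 → ∫ t in Icc (0:ℝ) 1, (S p α x t) ^ q =
      (1 / 2 : ℝ) ^ q * m0 p + (1 + 2 * (α * 2 ^ p)) ^ q * m1 p + 1 * m2 p := by
    intro x hx
    rw [← int_step (by linarith)]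
    refine setIntegral_congr_fun measurableSet_Icc fun t ht => ?_
    have ht' : 0 ≤ t ^ (p - 1) := Real.rpow_nonneg ht.1 _
    have hS : S p α x t = step (1 / 2) (1 + 2 * (α * 2 ^ p)) 1 t * t ^ (p - 1) := by
      have hk : kk x = 0 := by unfold kk; rw [if_neg hx]
      have hf : (Finset.univ.filter (fun ω : Fin 3 => ω ≠ kk x)) = {1, 2} := by
        rw [hk]; decide
      unfold S
      rw [hf, Finset.sum_pair (by decide)]
      simp only [U, indicator_of_mem ht, abs_mul, abs_of_nonneg ht']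
      rw [← add_mul]
      congr 1
      unfold step
      split_ifs
      · norm_num
      · rw [abs_neg, abs_of_pos h6, abs_of_pos (by linarith)]; ring
      · rw [abs_of_pos h0, abs_of_pos (by linarith)]; ring
    show (S p α x t) ^ q = _
    rw [hS, Real.mul_rpow _ ht', rpow_conj hpq ht.1]
    · congr 1
      unfold step
      split_ifs
      · rfl
      · rfl
      · exact Real.one_rpow _
    · unfold step
      split_ifs
      · norm_num
      · linarith
      · norm_num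
  -- choose κ
  set c1 := 1 * m0 p + (1 + α * 2 ^ p) ^ q * m1 p + (1 - α) ^ q * m2 p with hc1
  set c2 := (1 / 2 : ℝ) ^ q * m0 p + (1 + 2 * (α * 2 ^ p)) ^ q * m1 p + 1 * m2 p with hc2
  have hp1 : 0 < p + 1 := by linarith
  have hm : 0 ≤ max c1 c2 := by
    refine le_trans ?_ (le_max_left _ _)
    rw [← hA 0 (by norm_num)]
    exact integral_nonneg fun t => Real.rpow_nonneg (S_nonneg _ _ _ _) _
  have hm' : max c1 c2 * (p + 1) < 1 := by
    have : max c1 c2 < 1 / (p + 1) := max_lt h3 h4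
    rwa [lt_div_iff₀ hp1] at this
  have hmpos : 0 < (max c1 c2 * (p + 1) + 1) / 2 := by positivity
  refine ⟨((max c1 c2 * (p + 1) + 1) / 2) ^ (1 / q), by positivity, ?_, fun x => ?_⟩
  · exact Real.rpow_lt_one hmpos.le (by linarith) (by positivity)
  · have h7 : (((max c1 c2 * (p + 1) + 1) / 2) ^ (1 / q)) ^ q = (max c1 c2 * (p + 1) + 1) / 2 := by
      rw [← Real.rpow_mul hmpos.le, one_div_mul_cancel (by linarith), Real.rpow_one]
    rw [h7, le_div_iff₀ hp1]
    have h8 : ∫ t in Icc (0:ℝ) 1, (S p α x t) ^ q ≤ max c1 c2 := by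
      by_cases hx : x < 1 / 4
      · rw [hA x hx]; exact le_max_left _ _
      · rw [hB x hx]; exact le_max_right _ _
    have h9 : (∫ t in Icc (0:ℝ) 1, (S p α x t) ^ q) * (p + 1) ≤ max c1 c2 * (p + 1) := by
      gcongr
    linarith

end Pool.Agent.H298R3.Lp
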